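import Mathlib
import Pool.Agent.R288.CL.DefsO
import Pool.Agent.R288.CL.GA
import Pool.Agent.R288.CL.GB
import Pool.Agent.R288.CL.OP5

/-!
# MP_335bcb_an: the group von Neumann algebras of the cloning groups

Definitions: `Pool.Agent.R288.CL.Defs`, `Pool.Agent.R288.CL.DefsO` (the groups, property
Gamma, noncommuting central sequences) and `Pool.Agent.Helper436.SN.StmtG` (`L(Γ)` and its trace vector `δ_e`).
-/

set_option autoImplicit false

namespace Pool.Agent.Results.MP_335bcb_an.AlwaysGammaMcDuff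

open Pool.Agent.R288.CL Pool.Agent.Helper278 Pool.Agent.Helper436.SN

/-- Let `φ` be an automorphism with `φ² = id` of a group `G` (fixed-point-free or not). The groups
`𝒯(∏^*(G))` (`A = AllLab`) and `𝒯(Ψ^*(G))` (`A = PsiLab`) exist, and for each of them the group von
Neumann algebra has property Gamma and two noncommuting central sequences. -/
theorem result (G : Type) [Group G] (φ : G ≃* G) (hφ : ∀ g, φ (φ g) = g)
    (A : List G → Prop) (hA : A = AllLab ∨ A = PsiLab) :
    (∃ (Γ : Type) (_ : Group Γ) (cls : {t : Triple G // A t.lab} → Γ), IsCloningGroup φ A Γ cls) ∧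
    ∀ (Γ : Type) [Group Γ] (cls : {t : Triple G // A t.lab} → Γ), IsCloningGroup φ A Γ cls →
      GammaAndMcDuff Γ := by
  refine ⟨GC G φ hφ A hA, ?_⟩
  intro Γ _ cls h
  obtain ⟨ρ, hρ, hact⟩ := GA G φ hφ A hA Γ cls h
  obtain ⟨s, t, hD⟩ := GB G φ hφ A hA Γ cls h.surj ρ hρ hact
  exact OP Γ s t hD

end Pool.Agent.Results.MP_335bcb_an.AlwaysGammaMcDuff
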